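import Mathlib
import Pool.Agent.R669.Rad
import Pool.Agent.H32BU.All

/-!
# Finitely many generators decide local finiteness if the classes grow slowly

Outline.  Let `m ≥ 1`, and let `G` be a group whose `m`-generator subgroups are nilpotent of class at
most `2 ^ m - 2`.  If `G` is nontrivial, it has a nontrivial abelian normal subgroup.  For suppose
that each element which commutes with all its conjugates is trivial; then `G` is trivial, by
induction on `m`: for `m = 1` the one-generator subgroups have class `0`.  Let `m > 1`, let `F` be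
generated by `m - 1` elements and let `z` be in the term `γ_c(F)` of the lower central series, where
`c = 2 ^ (m - 1) - 1`.  For each `g ∈ G` the commutator `[z, [z, g]]` lies in `γ_(2c+1)(⟨F, g⟩)`,
which is trivial, as `2 c = 2 ^ m - 2`.  So `z` commutes with `g z g⁻¹` for all `g`, and `z = 1`.
Hence the `(m - 1)`-generator subgroups have class at most `2 ^ (m - 1) - 2`.

The property passes to quotients, so that a periodic group `G` with this property coincides with its
locally finite radical.  In terms of words: if `w_0 = x_0` and `w_(i+1) = [w_i, x w_i x⁻¹]` with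
`x = x_(i+1)`, then `w_(m-1)` is in the term `γ_(2^m-1)` of the free group of rank `m`, and a periodic
group which satisfies one of the laws `w_i = 1` is locally finite (`Pool.Agent.R669.Rad`).

If the finite `m`-generator groups of exponent `n` have class at most `2 ^ m - 2`, all this applies to
the groups of exponent `n` with finite `m`-generator subgroups.  For the exponents with two prime
divisors the result is combined with the earlier result `ThreeGenerators`.
-/

set_option autoImplicit false

namespace Pool.Agent.Results.MP_544bd1_al.ClassGrowth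

open Subgroup Pool.Agent.R669
open scoped commutatorElement

universe u

/-- `n ∈ 𝓛`: every group satisfying `x ^ n = 1` is locally finite. -/
def InL (n : ℕ) : Prop := ∀ (G : Type u) [Group G], (∀ x : G, x ^ n = 1) →
  ∀ S : Set G, S.Finite → Finite (Subgroup.closure S)

/-- The free Burnside group `B_{m,n}`: the free group of rank `m` modulo the normal closure of all
`n`-th powers. -/
abbrev B (m n : ℕ) : Type :=
  FreeGroup (Fin m) ⧸ Subgroup.normalClosure (Set.range fun w : FreeGroup (Fin m) => w ^ n)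

/-- Every finite group which satisfies `x ^ n = 1` and is generated by `m` elements is nilpotent of
class at most `2 ^ m - 2`. -/
def SlowClass (n m : ℕ) : Prop := ∀ (F : Type) [Group F] [Finite F], (∀ x : F, x ^ n = 1) →
  ∀ a : Fin m → F, Subgroup.closure (Set.range a) = ⊤ →
    Group.IsNilpotent F ∧ Group.nilpotencyClass F ≤ 2 ^ m - 2

theorem word_sub {G : Type u} [Group G] (S : Subgroup G) (g : ℕ → G) (m : ℕ)
    (hg : ∀ i ≤ m, g i ∈ S) (h1 : Group.IsNilpotent S)
    (h2 : Group.nilpotencyClass S ≤ 2 ^ (m + 1) - 2) : word g m = 1 := by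
  let g' : ℕ → S := fun i => if h : i ≤ m then ⟨g i, hg i h⟩ else 1
  have h3 : word g' m ∈ (⊤ : Subgroup S).lowerCentralSeries (2 ^ (m + 1) - 2) := word_lcs g' m
  rw [Subgroup.lowerCentralSeries_eq_bot_iff_nilpotencyClass_le.2 h2, mem_bot] at h3
  have h4 := congrArg S.subtype h3
  rw [map_word, map_one] at h4
  rw [← h4]
  refine word_congr _ _ _ fun i hi => ?_
  change g i = ((if h : i ≤ m then (⟨g i, hg i h⟩ : S) else 1 : S) : G)
  rw [dif_pos hi]

theorem mem_cl {G : Type u} [Group G] (g : ℕ → G) (m : ℕ) (i : ℕ) (hi : i ≤ m) :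
    g i ∈ closure (Set.range fun j : Fin (m + 1) => g j) :=
  subset_closure ⟨⟨i, by omega⟩, rfl⟩

/-- part (1) -/
theorem part1 (m : ℕ) (hm : 1 ≤ m) (G : Type u) [Group G] (hp : ∀ x : G, IsOfFinOrder x)
    (h : ∀ a : Fin m → G, Group.IsNilpotent (closure (Set.range a)) ∧
      Group.nilpotencyClass (closure (Set.range a)) ≤ 2 ^ m - 2) (S : Set G) (hS : S.Finite) :
    Finite (closure S) := by
  obtain ⟨m, rfl⟩ := Nat.exists_eq_add_of_le' hm
  refine W629.finite_closure_u S hS fun Q _ f hf => ?_
  have hQ : ∀ x : Q, IsOfFinOrder x := by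
    intro x
    obtain ⟨k, hk, hx⟩ := isOfFinOrder_iff_pow_eq_one.1 (hp (f x))
    exact isOfFinOrder_iff_pow_eq_one.2 ⟨k, hk, hf (by rw [map_pow, hx, map_one])⟩
  refine lf_of_word hQ m fun g => hf ?_
  rw [map_word, map_one]
  exact word_sub _ _ m (fun i hi => mem_cl _ m i hi) (h _).1 (h _).2

theorem cl_gen {G : Type} [Group G] {m : ℕ} (a : Fin m → G) :
    closure (Set.range fun j : Fin m => (⟨a j, subset_closure ⟨j, rfl⟩⟩ :
      closure (Set.range a))) = ⊤ := by
  rw [← closure_closure_coe_preimage (k := Set.range a)]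
  congr 1
  ext ⟨x, hx⟩
  simp only [Set.mem_range, Set.mem_preimage, Subtype.mk.injEq]

/-- local finiteness from finite `m`-generator subgroups -/
theorem lf_of_slow {n m : ℕ} (hn : 1 ≤ n) (hm : 1 ≤ m) (hc : SlowClass n m) (G : Type u) [Group G]
    (hG : ∀ x : G, x ^ n = 1) (h : ∀ a : Fin m → G, Finite (closure (Set.range a))) (S : Set G)
    (hS : S.Finite) : Finite (closure S) := by
  obtain ⟨m, rfl⟩ := Nat.exists_eq_add_of_le' hm
  refine W629.finite_closure_u S hS fun Q _ f hf => ?_
  have hQ : ∀ x : Q, x ^ n = 1 := fun x => hf (by rw [map_pow, map_one]; exact hG _)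
  refine lf_of_word (fun x => isOfFinOrder_iff_pow_eq_one.2 ⟨n, hn, hQ x⟩) m fun g => ?_
  let a : Fin (m + 1) → Q := fun j => g j
  have hfin : Finite (closure (Set.range a)) := by
    refine W629.finite_of_image f hf _ ?_
    rw [← Set.range_comp]
    exact h _
  have h1 := hc (closure (Set.range a)) (fun x => Subtype.ext (hQ x.1)) _ (cl_gen a)
  exact word_sub _ g m (fun i hi => mem_cl g m i hi) h1.1 h1.2

/-- `m`-generator subgroups are images of the free Burnside group -/
theorem bu_onto {m n : ℕ} {G : Type u} [Group G] (hG : ∀ x : G, x ^ n = 1) (a : Fin m → G) :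
    ∃ f : B m n →* G, f.range = closure (Set.range a) := by
  let f0 : FreeGroup (Fin m) →* G := FreeGroup.lift a
  have hker : Subgroup.normalClosure (Set.range fun w : FreeGroup (Fin m) => w ^ n) ≤ f0.ker := by
    apply Subgroup.normalClosure_le_normal
    rintro _ ⟨w, rfl⟩
    rw [SetLike.mem_coe, MonoidHom.mem_ker, map_pow, hG]
  refine ⟨QuotientGroup.lift _ f0 (fun w hw => hker hw), ?_⟩
  have e1 : (QuotientGroup.lift _ f0 (fun w hw => hker hw) : B m n →* G).range = f0.range := by
    ext g
    constructor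
    · rintro ⟨w, rfl⟩
      obtain ⟨w, rfl⟩ := QuotientGroup.mk_surjective w
      exact ⟨w, rfl⟩
    · rintro ⟨w, rfl⟩
      exact ⟨(w : B m n), rfl⟩
  rw [e1]
  exact FreeGroup.range_lift_eq_closure

theorem gen_finite {m n : ℕ} (hB : Finite (B m n)) {G : Type u} [Group G]
    (hG : ∀ x : G, x ^ n = 1) (a : Fin m → G) : Finite (closure (Set.range a)) := by
  obtain ⟨f, hf⟩ := bu_onto hG a
  rw [← hf]
  exact Finite.of_surjective f.rangeRestrict f.rangeRestrict_surjective

/-- part (2) -/
theorem inL_iff_slow {n m : ℕ} (hn : 1 ≤ n) (hm : 1 ≤ m) (hc : SlowClass n m) :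
    InL.{u} n ↔ Finite (B m n) :=
  ⟨fun h => H32BU.bu_of_inL H32BU.x_LFD n h m,
    fun h G _ hG S hS => lf_of_slow hn hm hc G hG (gen_finite h hG) S hS⟩

theorem b_of_dvd {m d n : ℕ} (hd : d ∣ n) (h : Finite (B m n)) : Finite (B m d) := by
  have hle : Subgroup.normalClosure (Set.range fun w : FreeGroup (Fin m) => w ^ n) ≤
      (QuotientGroup.mk' (Subgroup.normalClosure
        (Set.range fun w : FreeGroup (Fin m) => w ^ d))).ker := by
    apply Subgroup.normalClosure_le_normal
    rintro _ ⟨w, rfl⟩
    obtain ⟨c, rfl⟩ := hd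
    change QuotientGroup.mk' _ (w ^ (d * c)) = 1
    rw [map_pow, pow_mul]
    have h1 := H32BU.x_LFD.2.2.2 m d (QuotientGroup.mk' (Subgroup.normalClosure
        (Set.range fun w : FreeGroup (Fin m) => w ^ d)) w)
    rw [h1, one_pow]
  refine Finite.of_surjective (QuotientGroup.lift _ _ hle) ?_
  intro x
  obtain ⟨w, rfl⟩ := QuotientGroup.mk_surjective x
  exact ⟨QuotientGroup.mk w, rfl⟩

theorem b_mono {m M n : ℕ} (hm : m ≤ M) (h : Finite (B M n)) : Finite (B m n) := by
  let a : Fin M → B m n := fun j =>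
    if hj : (j : ℕ) < m then QuotientGroup.mk (FreeGroup.of ⟨j, hj⟩) else 1
  have h1 : Finite (closure (Set.range a)) := gen_finite h (H32BU.x_LFD.2.2.2 m n) a
  have h2 : closure (Set.range a) = ⊤ := by
    rw [eq_top_iff]
    rintro x -
    obtain ⟨w, rfl⟩ := QuotientGroup.mk_surjective x
    induction w using FreeGroup.induction_on with
    | C1 => exact one_mem _
    | of i =>
      refine subset_closure ⟨⟨i, i.2.trans_le hm⟩, ?_⟩
      change (if hj : (i : ℕ) < m then (QuotientGroup.mk (FreeGroup.of ⟨i, hj⟩) : B m n) else 1) = _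
      rw [dif_pos i.2]
    | inv_of i hi =>
      have := inv_mem hi
      exact this
    | mul a b ha hb =>
      have := mul_mem ha hb
      exact this
  rw [h2] at h1
  exact Finite.of_equiv _ (Subgroup.topEquiv (G := B m n)).toEquiv

/-- The element `w_m (x_0, …, x_m)` of `B_{m+1,n}`, where `x_0, …, x_m` are the generators. -/
def W (n m : ℕ) : B (m + 1) n :=
  word (fun i => if h : i < m + 1 then QuotientGroup.mk (FreeGroup.of ⟨i, h⟩) else 1) m

/-- if `W n m` is trivial, `w_m` is a law in the groups of exponent `n` -/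
theorem law_of_W {n m : ℕ} (hW : W n m = 1) {G : Type u} [Group G] (hG : ∀ x : G, x ^ n = 1)
    (g : ℕ → G) : word g m = 1 := by
  let f0 : FreeGroup (Fin (m + 1)) →* G := FreeGroup.lift fun i => g i
  have hker : Subgroup.normalClosure (Set.range fun w : FreeGroup (Fin (m + 1)) => w ^ n) ≤
      f0.ker := by
    apply Subgroup.normalClosure_le_normal
    rintro _ ⟨w, rfl⟩
    rw [SetLike.mem_coe, MonoidHom.mem_ker, map_pow, hG]
  let f : B (m + 1) n →* G := QuotientGroup.lift _ f0 (fun w hw => hker hw)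
  have h1 := congrArg f hW
  rw [map_one, W, map_word] at h1
  rw [← h1]
  refine word_congr _ _ _ fun i hi => ?_
  have hi' : i < m + 1 := by omega
  rw [dif_pos hi']
  change g i = f0 (FreeGroup.of ⟨i, hi'⟩)
  simp [f0]

/-- periodic groups with the law `w_m = 1`, in all universes -/
theorem lf_word_u (m : ℕ) (G : Type u) [Group G] (hp : ∀ x : G, IsOfFinOrder x)
    (h : ∀ g : ℕ → G, word g m = 1) (S : Set G) (hS : S.Finite) : Finite (closure S) := by
  refine W629.finite_closure_u S hS fun Q _ f hf => ?_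
  have hQ : ∀ x : Q, IsOfFinOrder x := by
    intro x
    obtain ⟨k, hk, hx⟩ := isOfFinOrder_iff_pow_eq_one.1 (hp (f x))
    exact isOfFinOrder_iff_pow_eq_one.2 ⟨k, hk, hf (by rw [map_pow, hx, map_one])⟩
  exact lf_of_word hQ m fun g => hf (by rw [map_word, map_one]; exact h _)

theorem inL_of_W {n m : ℕ} (hn : 1 ≤ n) (hW : W n m = 1) : InL.{u} n :=
  fun G _ hG S hS => lf_word_u m G (fun x => isOfFinOrder_iff_pow_eq_one.2 ⟨n, hn, hG x⟩)
    (law_of_W hW hG) S hS

theorem W_of_inL {n m : ℕ} (hc : SlowClass n (m + 1)) (h : InL.{u} n) : W n m = 1 := by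
  have hf : Finite (B (m + 1) n) := H32BU.bu_of_inL H32BU.x_LFD n h (m + 1)
  let a : Fin (m + 1) → B (m + 1) n := fun j => QuotientGroup.mk (FreeGroup.of j)
  have htop : closure (Set.range a) = ⊤ := by
    rw [eq_top_iff]
    rintro x -
    obtain ⟨w, rfl⟩ := QuotientGroup.mk_surjective x
    induction w using FreeGroup.induction_on with
    | C1 => exact one_mem _
    | of i => exact subset_closure ⟨i, rfl⟩
    | inv_of i hi =>
      have := inv_mem hi
      exact this
    | mul a b ha hb =>
      have := mul_mem ha hb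
      exact this
  obtain ⟨h1, h2⟩ := hc (B (m + 1) n) (H32BU.x_LFD.2.2.2 (m + 1) n) a htop
  have h3 : W n m ∈ (⊤ : Subgroup (B (m + 1) n)).lowerCentralSeries (2 ^ (m + 1) - 2) :=
    word_lcs _ m
  rwa [Subgroup.lowerCentralSeries_eq_bot_iff_nilpotencyClass_le.2 h2, mem_bot] at h3

/-- Let `w_0 = x_0` and `w_(i+1) = [w_i, x w_i x⁻¹]` with `x = x_(i+1)` (`word`).
(1) A periodic group which satisfies one of the laws `w_m = 1` is locally finite; in particular, if
`w_m (x_0, …, x_m)` is trivial in the free Burnside group `B_{m+1,n}` for some `m`, then `n ∈ 𝓛`.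
(2) Let `m ≥ 1`. A periodic group all of whose `m`-generator subgroups are nilpotent of class at most
`2 ^ m - 2` is locally finite.
(3) Let `n ≥ 1`, `m ≥ 1`, and suppose that the finite `m`-generator groups of exponent dividing `n`
are nilpotent of class at most `2 ^ m - 2`. Then a group of exponent dividing `n` is locally finite
if its `m`-generator subgroups are finite; and `n ∈ 𝓛` if and only if `B_{m,n}` is finite, and also
if and only if `w_(m-1) (x_0, …, x_(m-1))` is trivial in `B_{m,n}`.
(4) Let `M ≥ 3`, let `n` have at most two prime divisors or let `B_{3,n}` be soluble, and suppose that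
for each prime power `q > 4` dividing `n` there is `m` with `1 ≤ m ≤ M` such that the finite
`m`-generator groups of exponent dividing `q` are nilpotent of class at most `2 ^ m - 2`. Then
`n ∈ 𝓛` if and only if `B_{M,n}` is finite. -/
theorem result :
    ((∀ m : ℕ, ∀ (G : Type u) [Group G], (∀ x : G, IsOfFinOrder x) →
        (∀ g : ℕ → G, word g m = 1) → ∀ S : Set G, S.Finite → Finite (Subgroup.closure S)) ∧
      ∀ n m : ℕ, 1 ≤ n → W n m = 1 → InL.{u} n) ∧
    (∀ m : ℕ, 1 ≤ m → ∀ (G : Type u) [Group G], (∀ x : G, IsOfFinOrder x) →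
      (∀ a : Fin m → G, Group.IsNilpotent (Subgroup.closure (Set.range a)) ∧
        Group.nilpotencyClass (Subgroup.closure (Set.range a)) ≤ 2 ^ m - 2) →
      ∀ S : Set G, S.Finite → Finite (Subgroup.closure S)) ∧
    (∀ n m : ℕ, 1 ≤ n → SlowClass n (m + 1) →
      (∀ (G : Type u) [Group G], (∀ x : G, x ^ n = 1) →
        (∀ a : Fin (m + 1) → G, Finite (Subgroup.closure (Set.range a))) →
        ∀ S : Set G, S.Finite → Finite (Subgroup.closure S)) ∧
      (InL.{u} n ↔ Finite (B (m + 1) n)) ∧ (InL.{u} n ↔ W n m = 1)) ∧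
    (∀ n M : ℕ, 1 ≤ n → 3 ≤ M → (n.primeFactors.card ≤ 2 ∨ Group.IsSolvable (B 3 n)) →
      (∀ p k : ℕ, p.Prime → p ^ k ∣ n → 4 < p ^ k →
        ∃ m : ℕ, 1 ≤ m ∧ m ≤ M ∧ SlowClass (p ^ k) m) →
      (InL.{u} n ↔ Finite (B M n))) := by
  refine ⟨⟨fun m G _ hp h S hS => lf_word_u m G hp h S hS, fun n m hn hW => inL_of_W hn hW⟩,
    fun m hm G _ hp h S hS => part1 m hm G hp h S hS, fun n m hn hc =>
    ⟨fun G _ hG h S hS => lf_of_slow hn (by omega) hc G hG h S hS,
      inL_iff_slow hn (by omega) hc, W_of_inL hc, inL_of_W hn⟩, ?_⟩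
  intro n M hn hM hs hq
  refine ⟨fun h => H32BU.bu_of_inL H32BU.x_LFD n h M, fun h => ?_⟩
  refine (H32BU.x_FINAL.{u} n hn hs fun p k hp hk h4 => ?_).2 (b_mono hM h)
  obtain ⟨m, hm1, hm2, hc⟩ := hq p k hp hk h4
  exact (inL_iff_slow (pow_pos hp.pos _) hm1 hc).2 (b_mono hm2 (b_of_dvd hk h))

end Pool.Agent.Results.MP_544bd1_al.ClassGrowth
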