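import Mathlib
import Pool.Agent.R669.NwD
import Pool.Agent.R669.NwE

/-!
# One nested word decides whether `p ^ a m` belongs to `𝓛`

Let `G` have exponent `n` and let `r` be a unitary divisor of `n` (coprime to `n / r`).  The
elements `e` with `(e z) ^ r = 1` for all `z` with `z ^ r = 1` form a normal subgroup `Rad r G` of
exponent `r`, the largest one.  The elements `z` with `z ^ r = 1` are the `(n / r)`-th powers, also
modulo normal subgroups.  So the iterated subgroups of this kind (for a list of unitary divisors of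
`n`) are given by nested words, and a group of exponent `n` has a normal series with factors of
exponents `r, s, …` if and only if it satisfies one law.  (`Pool.Agent.R669.NwA`)

If `n = p ^ a m`, the theorem of Hall and Higman (in the form `Pool.Agent.TH69.Og.hhBG` of an
earlier result: `x ^ (p ^ a) = 1` implies that `x ^ (p ^ (a - 1))` is in `O_{p',p}`) gives such a
series with factors of exponents `m, p ^ a, m, …, p ^ a, m` for all finite soluble groups of
exponent `n`, if there is no prime `q` dividing `m` with `q ^ r = p ^ μ - 1`, `μ ≤ a`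
(`Pool.Agent.R669.NwB`).  So the law holds in all locally finite groups of exponent `n`, if `n` has
at most two prime divisors, and it implies local finiteness if `p ^ a` and `m` are in `𝓛`.
-/

set_option autoImplicit false

namespace Pool.Agent.Results.MP_544bd1_al.NestedWords

open scoped commutatorElement
open Pool.Agent Pool.Agent.H32BU

universe u

/-- `n ∈ 𝓛`: every group satisfying `x ^ n = 1` is locally finite. -/
def InL (n : ℕ) : Prop := ∀ (G : Type u) [Group G], (∀ x : G, x ^ n = 1) →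
  ∀ S : Set G, S.Finite → Finite (Subgroup.closure S)

/-- The free Burnside group `B_{m,n}`: the free group of rank `m` modulo the normal closure of all
`n`-th powers. -/
abbrev B (m n : ℕ) : Type :=
  FreeGroup (Fin m) ⧸ Subgroup.normalClosure (Set.range fun w : FreeGroup (Fin m) => w ^ n)

/-- The generators of `B_{m,n}`, for `i < m` (and `1` for `i ≥ m`). -/
def gen (m n i : ℕ) : B m n :=
  if h : i < m then QuotientGroup.mk (FreeGroup.of ⟨i, h⟩) else 1

/-- `G` has normal subgroups `G = N 0 ≥ N 1 ≥ … ≥ N k = 1`, where `k` is the length of the list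
`l`, such that the exponent of `N i / N (i + 1)` divides the `i`-th member of `l`. -/
def HasSeries (l : List ℕ) (G : Type u) [Group G] : Prop :=
  ∃ N : ℕ → Subgroup G, N 0 = ⊤ ∧ N l.length = ⊥ ∧ ∀ (i : ℕ) (h : i < l.length),
    (N i).Normal ∧ N (i + 1) ≤ N i ∧ ∀ x ∈ N i, x ^ l[i] ∈ N (i + 1)

/-- The nested words: for the list `r, s, t, …` and the elements `e, w 0, w 1, w 2, …` the value is
`(… (((e (w 0) ^ (n / r)) ^ r (w 1) ^ (n / s)) ^ s (w 2) ^ (n / t)) ^ t …)`. -/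
def nest {G : Type u} [Group G] (n : ℕ) : List ℕ → (ℕ → G) → G → G
  | [], _, e => e
  | r :: l, w, e => nest n l (fun i => w (i + 1)) ((e * w 0 ^ (n / r)) ^ r)

/-- The list `q, m, q, m, …, q, m` of length `2 a`. -/
def alt (q m : ℕ) : ℕ → List ℕ
  | 0 => []
  | a + 1 => q :: m :: alt q m a

/-- `p` is a prime that does not divide `m`, and no power `q ^ r`, `r ≥ 1`, of a prime `q` dividing
`m` is equal to one of the numbers `p - 1, p ^ 2 - 1, …, p ^ a - 1`. -/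
def Generic (p a m : ℕ) : Prop :=
  p.Prime ∧ ¬ p ∣ m ∧ 1 ≤ m ∧
    ∀ q : ℕ, q.Prime → q ∣ m → ∀ μ, 1 ≤ μ → μ ≤ a → ∀ r, 1 ≤ r → q ^ r ≠ p ^ μ - 1

/-- The commutator `[y, x, x, x]`, where `[a, b] = a b a⁻¹ b⁻¹`. -/
def eng3 {G : Type u} [Group G] (x y : G) : G := ⁅⁅⁅y, x⁆, x⁆, x⁆

/-- The element `[g, z, z, z]`, `z = [y, x, x, x]`, of `B_{3,5}`, where `x, y, g` are the
generators. -/
def word5 : B 3 5 :=
  ⁅⁅⁅gen 3 5 2, eng3 (gen 3 5 0) (gen 3 5 1)⁆, eng3 (gen 3 5 0) (gen 3 5 1)⁆,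
    eng3 (gen 3 5 0) (gen 3 5 1)⁆

theorem nest_eq {G : Type u} [Group G] (n : ℕ) : ∀ (l : List ℕ) (w : ℕ → G) (e : G),
    nest n l w e = R669.Nw.nest n l w e
  | [], _, _ => rfl
  | _ :: l, _, _ => nest_eq n l _ _

theorem alt_eq (q m : ℕ) : ∀ a, alt q m a = R669.Nw.alt q m a
  | 0 => rfl
  | a + 1 => by rw [alt, alt_eq q m a]; rfl

theorem part1 (n r : ℕ) (l : List ℕ) (hn : 1 ≤ n)
    (hl : ∀ s ∈ r :: l, ∃ t, n = s * t ∧ Nat.Coprime s t) (G : Type u) [Group G]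
    (hG : ∀ x : G, x ^ n = 1) :
    (HasSeries (r :: l) G ↔ ∀ (x : G) (w : ℕ → G), nest n l w (x ^ r) = 1) ∧
    ((∀ s ∈ r :: l, InL.{u} s) → (∀ (x : G) (w : ℕ → G), nest n l w (x ^ r) = 1) →
      ∀ S : Set G, S.Finite → Finite (Subgroup.closure S)) := by
  simp only [nest_eq]
  exact ⟨R669.Nw.series_iff hn l hl hG, fun hL h S hS =>
    R669.Nw.lf_law hn l hl (fun s hs => R669.Nw.inL_loc.1 (hL s hs)) G hG h S hS⟩

theorem part2 (p a m : ℕ) (h : Generic p a m)
    (hs : (p ^ a * m).primeFactors.card ≤ 2 ∨ Group.IsSolvable (B (2 * a + 1) (p ^ a * m))) :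
    InL.{u} (p ^ a * m) ↔ InL.{u} (p ^ a) ∧ InL.{u} m ∧
      nest (p ^ a * m) (alt (p ^ a) m a) (fun i => gen (2 * a + 1) (p ^ a * m) (i + 1))
        (gen (2 * a + 1) (p ^ a * m) 0 ^ m) = 1 := by
  rw [nest_eq, alt_eq]
  exact R669.Nw.inL_iff_word h hs

theorem part2G (p a m : ℕ) (h : Generic p a m) (h2 : (p ^ a * m).primeFactors.card ≤ 2)
    (hp : InL.{u} (p ^ a)) (hm : InL.{u} m) (G : Type u) [Group G]
    (hG : ∀ x : G, x ^ (p ^ a * m) = 1) :
    (∀ S : Set G, S.Finite → Finite (Subgroup.closure S)) ↔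
      ∀ (x : G) (w : ℕ → G), nest (p ^ a * m) (alt (p ^ a) m a) w (x ^ m) = 1 := by
  simp only [nest_eq, alt_eq]
  exact ⟨fun hlf x w => R669.Nw.law_lf h h2 G hG hlf x w, fun hlaw S hS =>
    R669.Nw.lf_of_law h (R669.Nw.inL_loc.1 hp) (R669.Nw.inL_loc.1 hm) G hG hlaw S hS⟩

theorem part2' (p a m q n : ℕ) (h : Generic p a m) (hq : q = p ^ a) (hn : n = q * m)
    (hs : n.primeFactors.card ≤ 2 ∨ Group.IsSolvable (B (2 * a + 1) n)) :
    InL.{u} n ↔ InL.{u} q ∧ InL.{u} m ∧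
      nest n (alt q m a) (fun i => gen (2 * a + 1) n (i + 1)) (gen (2 * a + 1) n 0 ^ m) = 1 := by
  subst hq hn
  exact part2 p a m h hs

theorem part4 (p m : ℕ) (hp : p.Prime) (hpm : ¬ p ∣ m) (hm : 1 ≤ m)
    (hg : p = 2 ∨ Odd m ∨ ∀ r : ℕ, p ≠ 2 ^ r + 1)
    (hs : (p * m).primeFactors.card ≤ 2 ∨ Group.IsSolvable (B 3 (p * m))) :
    InL.{u} (p * m) ↔ InL.{u} p ∧ InL.{u} m ∧
      ((gen 3 (p * m) 0 ^ m * gen 3 (p * m) 1 ^ m) ^ p * gen 3 (p * m) 2 ^ p) ^ m = 1 := by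
  have key := part2'.{u} p 1 m p (p * m) (R669.Nw.generic_prime hp hpm hm hg) (pow_one p).symm rfl
    hs
  have e1 : alt p m 1 = [p, m] := rfl
  rw [e1, nest_eq, R669.Nw.nest_two hp.pos hm] at key
  exact key

theorem nest_twenty {G : Type u} [Group G] (w : ℕ → G) (e : G) :
    nest (2 ^ 2 * 5) (alt (2 ^ 2) 5 2) w e =
      (((((e * w 0 ^ 5) ^ 4 * w 1 ^ 4) ^ 5 * w 2 ^ 5) ^ 4) * w 3 ^ 4) ^ 5 := by
  simp only [alt, nest]
  norm_num

theorem five : InL.{u} 5 ↔ word5 = 1 := by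
  constructor
  · intro h
    have hf : Finite (B 3 5) := H32BU.bu_of_inL H32BU.x_LFD 5 h 3
    exact R669.Nw.lemB_u (H32BU.x_LFD.2.2.2 3 5) _ _ _ inferInstance
  · intro h G _ h5
    refine (R669.Nw.lf_iff G h5).2 fun x y g => ?_
    obtain ⟨F, rfl, rfl, rfl⟩ := Y50.FE.bu_lift h5 x y g
    have h1 := congrArg F h
    rw [map_one] at h1
    simp only [word5, eng3, map_commutatorElement] at h1
    simp only [R669.Nw.eng3]
    exact h1

theorem inL_three : InL.{u} 3 := R669.Nw.inL_loc.2 H32BU.x_L34.1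

theorem inL_four : InL.{u} 4 := R669.Nw.inL_loc.2 H32BU.x_L34.2

theorem inL_two : InL.{u} 2 := R669.Nw.inL_loc.2 (H32BU.x_LFD.1 4 2 (by norm_num) H32BU.x_L34.2)

theorem ten : InL.{u} 10 ↔ word5 = 1 ∧
    ((gen 3 10 0 ^ 5 * gen 3 10 1 ^ 5) ^ 2 * gen 3 10 2 ^ 2) ^ 5 = 1 := by
  have h := part4.{u} 2 5 Nat.prime_two (by norm_num) (by norm_num) (Or.inl rfl) (Or.inl (by
    rw [show 2 * 5 = 2 ^ 1 * 5 ^ 1 by norm_num, Nat.primeFactors_mul (by norm_num) (by norm_num),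
      Nat.primeFactors_prime_pow (by norm_num) Nat.prime_two,
      Nat.primeFactors_prime_pow (by norm_num) Nat.prime_five]
    rfl))
  rw [← five.{u}]
  exact h.trans ⟨fun h => h.2, fun h => ⟨inL_two, h⟩⟩

theorem fifteen : InL.{u} 15 ↔ word5 = 1 ∧
    ((gen 3 15 0 ^ 5 * gen 3 15 1 ^ 5) ^ 3 * gen 3 15 2 ^ 3) ^ 5 = 1 := by
  have h := part4.{u} 3 5 Nat.prime_three (by norm_num) (by norm_num) (Or.inr (Or.inl (by decide)))
    (Or.inl (by
      rw [show 3 * 5 = 3 ^ 1 * 5 ^ 1 by norm_num, Nat.primeFactors_mul (by norm_num) (by norm_num),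
        Nat.primeFactors_prime_pow (by norm_num) Nat.prime_three,
        Nat.primeFactors_prime_pow (by norm_num) Nat.prime_five]
      rfl))
  rw [← five.{u}]
  exact h.trans ⟨fun h => h.2, fun h => ⟨inL_three, h⟩⟩

theorem generic_twenty : Generic 2 2 5 := by
  refine ⟨Nat.prime_two, by norm_num, by norm_num, fun q hq hd μ h1 h2 r hr h => ?_⟩
  have hq5 : q = 5 := (Nat.prime_dvd_prime_iff_eq hq Nat.prime_five).1 hd
  have h5 : 5 ^ 1 ≤ 5 ^ r := Nat.pow_le_pow_right (by norm_num) hr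
  rw [hq5] at h
  interval_cases μ <;> omega

theorem twenty : InL.{u} 20 ↔ word5 = 1 ∧
    (((((gen 5 20 0 ^ 5 * gen 5 20 1 ^ 5) ^ 4 * gen 5 20 2 ^ 4) ^ 5 * gen 5 20 3 ^ 5) ^ 4) *
      gen 5 20 4 ^ 4) ^ 5 = 1 := by
  have h := part2'.{u} 2 2 5 (2 ^ 2) (2 ^ 2 * 5) generic_twenty rfl rfl (Or.inl (by
    rw [show 2 ^ 2 * 5 = 2 ^ 2 * 5 ^ 1 by norm_num,
      Nat.primeFactors_mul (by norm_num) (by norm_num),
      Nat.primeFactors_prime_pow (by norm_num) Nat.prime_two,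
      Nat.primeFactors_prime_pow (by norm_num) Nat.prime_five]
    rfl))
  rw [nest_twenty] at h
  rw [← five.{u}]
  exact h.trans ⟨fun h => h.2, fun h => ⟨inL_four, h⟩⟩

/-- (1) Let `r, s, t, …` be unitary divisors of `n`, i.e. divisors coprime to their cofactors. A
group `G` of exponent dividing `n` has a normal series from `G` to `1` with factors of exponents
dividing `r, s, t, …`, in this order, if and only if it satisfies the law given by the nested word
of the list `s, t, …` at `x ^ r`. If `r, s, t, … ∈ 𝓛`, this law implies that `G` is locally finite.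
(2) Let `p, a, m` be as in `Generic`. If `n = p ^ a m` has at most two prime divisors, or
`B_{2a+1,n}` is soluble, then `n ∈ 𝓛` if and only if `p ^ a ∈ 𝓛`, `m ∈ 𝓛` and one nested word in
the generators of `B_{2a+1,n}` is trivial. If `n` has at most two prime divisors and `p ^ a` and `m`
are in `𝓛`, a group of exponent dividing `n` is locally finite if and only if it satisfies the
corresponding law.
(3) Every `n` with at most two prime divisors which is not divisible by `12` is of the form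
`p ^ a m` in (2).
(4) Let `p` be a prime, `m` not divisible by `p`, and let `p = 2`, or `m` be odd, or `p` not be of
the form `2 ^ r + 1`. If `p m` has at most two prime divisors, or `B_{3,pm}` is soluble, then
`p m ∈ 𝓛` if and only if `p ∈ 𝓛`, `m ∈ 𝓛` and `((x ^ m y ^ m) ^ p z ^ p) ^ m = 1` for the
generators `x, y, z` of `B_{3,pm}`.
(5) `10 ∈ 𝓛` if and only if `[g, z, z, z] = 1` in `B_{3,5}`, where `z = [y, x, x, x]`, and
`((x ^ 5 y ^ 5) ^ 2 z ^ 2) ^ 5 = 1` in `B_{3,10}`, for the generators; similarly for `15` and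
`20`. -/
theorem result :
    (∀ (n r : ℕ) (l : List ℕ), 1 ≤ n → (∀ s ∈ r :: l, ∃ t, n = s * t ∧ Nat.Coprime s t) →
      ∀ (G : Type u) [Group G], (∀ x : G, x ^ n = 1) →
        (HasSeries (r :: l) G ↔ ∀ (x : G) (w : ℕ → G), nest n l w (x ^ r) = 1) ∧
        ((∀ s ∈ r :: l, InL.{u} s) → (∀ (x : G) (w : ℕ → G), nest n l w (x ^ r) = 1) →
          ∀ S : Set G, S.Finite → Finite (Subgroup.closure S))) ∧
    (∀ p a m : ℕ, Generic p a m →
      ((p ^ a * m).primeFactors.card ≤ 2 ∨ Group.IsSolvable (B (2 * a + 1) (p ^ a * m)) →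
        (InL.{u} (p ^ a * m) ↔ InL.{u} (p ^ a) ∧ InL.{u} m ∧
          nest (p ^ a * m) (alt (p ^ a) m a) (fun i => gen (2 * a + 1) (p ^ a * m) (i + 1))
            (gen (2 * a + 1) (p ^ a * m) 0 ^ m) = 1)) ∧
      ((p ^ a * m).primeFactors.card ≤ 2 → InL.{u} (p ^ a) → InL.{u} m →
        ∀ (G : Type u) [Group G], (∀ x : G, x ^ (p ^ a * m) = 1) →
          ((∀ S : Set G, S.Finite → Finite (Subgroup.closure S)) ↔
            ∀ (x : G) (w : ℕ → G), nest (p ^ a * m) (alt (p ^ a) m a) w (x ^ m) = 1))) ∧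
    (∀ n : ℕ, 1 ≤ n → n.primeFactors.card ≤ 2 → ¬ 12 ∣ n →
      ∃ p a m : ℕ, n = p ^ a * m ∧ Generic p a m) ∧
    (∀ p m : ℕ, p.Prime → ¬ p ∣ m → 1 ≤ m → (p = 2 ∨ Odd m ∨ ∀ r : ℕ, p ≠ 2 ^ r + 1) →
      (p * m).primeFactors.card ≤ 2 ∨ Group.IsSolvable (B 3 (p * m)) →
      (InL.{u} (p * m) ↔ InL.{u} p ∧ InL.{u} m ∧
        ((gen 3 (p * m) 0 ^ m * gen 3 (p * m) 1 ^ m) ^ p * gen 3 (p * m) 2 ^ p) ^ m = 1)) ∧
    (InL.{u} 10 ↔ word5 = 1 ∧
      ((gen 3 10 0 ^ 5 * gen 3 10 1 ^ 5) ^ 2 * gen 3 10 2 ^ 2) ^ 5 = 1) ∧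
    (InL.{u} 15 ↔ word5 = 1 ∧
      ((gen 3 15 0 ^ 5 * gen 3 15 1 ^ 5) ^ 3 * gen 3 15 2 ^ 3) ^ 5 = 1) ∧
    (InL.{u} 20 ↔ word5 = 1 ∧
      (((((gen 5 20 0 ^ 5 * gen 5 20 1 ^ 5) ^ 4 * gen 5 20 2 ^ 4) ^ 5 * gen 5 20 3 ^ 5) ^ 4) *
        gen 5 20 4 ^ 4) ^ 5 = 1) :=
  ⟨fun n r l hn hl G _ hG => part1 n r l hn hl G hG,
    fun p a m h => ⟨part2 p a m h, fun h2 hp hm G _ hG => part2G p a m h h2 hp hm G hG⟩,
    fun _ hn h2 h12 => R669.Nw.exists_generic hn h2 h12,
    fun p m hp hpm hm hg hs => part4 p m hp hpm hm hg hs, ten, fifteen, twenty⟩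

end Pool.Agent.Results.MP_544bd1_al.NestedWords
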