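import Mathlib
import Pool.Agent.R669.SwG

/-!
# One word in three generators decides local finiteness for exponent five

Proof in outline.  Let `G` have exponent `5` and no nontrivial locally finite normal subgroup.

(T) If `[g, z, z, z] = 1` for all `g`, then `z = 1`.  This is proved here in full
(`Pool.Agent.R669.SwA` to `SwG`).  The set `X` of the conjugates of `z` satisfies: for `a, b ∈ X` the
group `⟨a, b⟩` has class at most two.  Let `s` be such that `⟨s, c⟩` has class at most two for all
`c ∈ X`; then `[[s, a], d, s]` and similar commutators are trivial, `⟨s, a, d⟩` has class at most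
three, and `X ∪ [X, X]` has the same property as `X`.  So `X` can be enlarged to a normal set closed
under commutators with this property.  The groups `⟨a, b, c⟩` with `a, b, c` in this set have
bounded class, and a module argument for exponent `5` shows that `a` commutes with its conjugates
under `⟨X⟩`.  So the normal closure of `z` is generated by elements whose normal closures in it are
abelian.

(B) In a finite group of exponent `5` the law `[g, z, z, z] = 1` holds for `z = [y, x, x, x]`
(`Pool.Agent.Y50.FE.lemB`, from the earlier result `ThreeGeneratorsFive`).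

If the law in (B) holds in `G`, then (T) gives `[y, x, x, x] = 1` for all `x, y`, and (T) again gives
`x = 1`.
-/

set_option autoImplicit false

namespace Pool.Agent.Results.MP_544bd1_al.OneWordFive

open scoped commutatorElement
open Subgroup Pool.Agent Pool.Agent.Y50.FE Pool.Agent.H32BU

universe u

/-- `n ∈ 𝓛`: every group satisfying `x ^ n = 1` is locally finite. -/
def InL (n : ℕ) : Prop := ∀ (G : Type u) [Group G], (∀ x : G, x ^ n = 1) →
  ∀ S : Set G, S.Finite → Finite (Subgroup.closure S)

/-- The free Burnside group `B_{m,n}`: the free group of rank `m` modulo the normal closure of all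
`n`-th powers. -/
abbrev B (m n : ℕ) : Type :=
  FreeGroup (Fin m) ⧸ Subgroup.normalClosure (Set.range fun w : FreeGroup (Fin m) => w ^ n)

/-- The generators of `B_{3,n}`. -/
def gen (n : ℕ) (i : Fin 3) : B 3 n := QuotientGroup.mk (FreeGroup.of i)

/-- The commutator `[y, x, x, x]`, where `[a, b] = a b a⁻¹ b⁻¹`. -/
def eng3 {G : Type u} [Group G] (x y : G) : G := ⁅⁅⁅y, x⁆, x⁆, x⁆

theorem lemB_u {G : Type u} [Group G] (h5 : ∀ g : G, g ^ 5 = 1) (x y g : G)
    (hf : Finite (closure ({x, y, g} : Set G))) :
    ⁅⁅⁅g, eng3 x y⁆, eng3 x y⁆, eng3 x y⁆ = 1 := by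
  have m0 : x ∈ closure ({x, y, g} : Set G) := subset_closure (by simp)
  have m1 : y ∈ closure ({x, y, g} : Set G) := subset_closure (by simp)
  have m2 : g ∈ closure ({x, y, g} : Set G) := subset_closure (by simp)
  let s : ℕ → closure ({x, y, g} : Set G) :=
    fun e => if e = 0 then ⟨x, m0⟩ else if e = 1 then ⟨y, m1⟩ else ⟨g, m2⟩
  have hs : closure ({s 0, s 1, s 2} : Set (closure ({x, y, g} : Set G))) = ⊤ := by
    rw [← closure_closure_coe_preimage]
    congr 1
    ext x
    obtain ⟨x, hx⟩ := x
    simp [s, Subtype.ext_iff]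
  have h1 := lemB (fun g => Subtype.ext (h5 _)) s hs
  exact congrArg Subtype.val h1

theorem lf_iff (G : Type u) [Group G] (h5 : ∀ x : G, x ^ 5 = 1) :
    (∀ S : Set G, S.Finite → Finite (Subgroup.closure S)) ↔
      ∀ x y g : G, ⁅⁅⁅g, eng3 x y⁆, eng3 x y⁆, eng3 x y⁆ = 1 := by
  constructor
  · intro h x y g
    exact lemB_u h5 x y g (h _ (Set.toFinite _))
  · intro h S hS
    refine W629.finite_closure_u S hS fun Q _ f hf => ?_
    refine R669.Sw.lf_w3 (fun g => hf (by rw [map_pow, map_one]; exact h5 _)) fun x y g => hf ?_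
    rw [R669.Sw.map_w3, map_one]
    exact h _ _ _

theorem inL_iff : InL.{u} 5 ↔
    ⁅⁅⁅gen 5 2, eng3 (gen 5 0) (gen 5 1)⁆, eng3 (gen 5 0) (gen 5 1)⁆,
      eng3 (gen 5 0) (gen 5 1)⁆ = 1 := by
  constructor
  · intro h
    have hf : Finite (B 3 5) := H32BU.bu_of_inL H32BU.x_LFD 5 h 3
    exact lemB_u (H32BU.x_LFD.2.2.2 3 5) _ _ _ inferInstance
  · intro h G _ h5
    refine (lf_iff G h5).2 fun x y g => ?_
    obtain ⟨F, rfl, rfl, rfl⟩ := bu_lift h5 x y g
    have h1 := congrArg F h
    rw [map_one] at h1
    simp only [eng3, map_commutatorElement] at h1 ⊢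
    exact h1

/-- Let `z = [y, x, x, x]`. (1) A group of exponent dividing `5` is locally finite if and only if
`[g, z, z, z] = 1` for all its elements `x, y, g`. (2) `5 ∈ 𝓛` if and only if `[g, z, z, z] = 1` for
the generators `x, y, g` of `B_{3,5}`. -/
theorem result :
    (∀ (G : Type u) [Group G], (∀ x : G, x ^ 5 = 1) →
      ((∀ S : Set G, S.Finite → Finite (Subgroup.closure S)) ↔
        ∀ x y g : G, ⁅⁅⁅g, eng3 x y⁆, eng3 x y⁆, eng3 x y⁆ = 1)) ∧
    (InL.{u} 5 ↔ ⁅⁅⁅gen 5 2, eng3 (gen 5 0) (gen 5 1)⁆, eng3 (gen 5 0) (gen 5 1)⁆,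
      eng3 (gen 5 0) (gen 5 1)⁆ = 1) :=
  ⟨lf_iff, inL_iff⟩

end Pool.Agent.Results.MP_544bd1_al.OneWordFive
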