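import Mathlib
import Pool.Agent.Results.MP_544bd1_al.TwoGenerators
import Pool.Agent.Y50.FE.Word
import Pool.Agent.R669.Wreath

/-!
# Two generators decide local finiteness for the proper multiples of five

Outline.  The earlier result `TwoGenerators` says, for the admissible exponents `n`, that `n ∈ 𝓛` if
and only if all prime powers greater than `4` dividing `n` are in `𝓛` and the two-generator free
Burnside group `B_{2,n}` is finite.  For `n = 10, 15, 20` this leaves the condition `5 ∈ 𝓛`, on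
which the finiteness of `B_{2,5}` is not known to bear.  It is shown here that it can be omitted, for
all multiples `n ≠ 5` of `5`.

Let `n = 5 m` with `m ≥ 2`, let `B_{2,n}` be finite, and let `a, b, c` be elements of a group `H` of
exponent `5`.  The regular wreath product `W` of `H` and a cyclic group `Q = ⟨t⟩` of order `m` has
exponent dividing `5 m`.  Let `u` be the function `Q → H` with `u 1 = a` and `u q = b` for `q ≠ 1`,
and let `v = e t`, where `e` is the function with `e 1 = c` and `e q = 1` for `q ≠ 1`.  Then `v ^ m`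
has the value `c` at `1`, and the conjugates of `u` under the powers of `v` have at `1` the values
of `u` conjugated by `1` or `c`.  So the intersection of the finite group `⟨u, v⟩` and the base group
is mapped by the evaluation at `1` onto a group which contains `a`, `b` and `c`, and `⟨a, b, c⟩` is
finite (`Pool.Agent.R669.Wreath`).  By the earlier result `ThreeGeneratorsFive`, a group of exponent
`5` is locally finite if its three-generator subgroups are finite; so `5 ∈ 𝓛`.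
-/

set_option autoImplicit false

namespace Pool.Agent.Results.MP_544bd1_al.TwoGeneratorsMultiplesOfFive

universe u

/-- `n ∈ 𝓛`: every group satisfying `x ^ n = 1` is locally finite. -/
def InL (n : ℕ) : Prop := ∀ (G : Type u) [Group G], (∀ x : G, x ^ n = 1) →
  ∀ S : Set G, S.Finite → Finite (Subgroup.closure S)

/-- The free Burnside group `B_{m,n}`: the free group of rank `m` modulo the normal closure of all
`n`-th powers. -/
abbrev B (m n : ℕ) : Type :=
  FreeGroup (Fin m) ⧸ Subgroup.normalClosure (Set.range fun w : FreeGroup (Fin m) => w ^ n)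

/-- The exponents treated here: `n` is not divisible by `2 ^ m * (2 ^ m - 1) ^ 2` for any `m ≥ 2`,
and there are at most two odd primes whose square divides `n`. -/
def Admissible (n : ℕ) : Prop :=
  (∀ m : ℕ, 2 ≤ m → ¬ 2 ^ m * (2 ^ m - 1) ^ 2 ∣ n) ∧
    ∃ p q : ℕ, ∀ r : ℕ, r.Prime → r ≠ 2 → r ^ 2 ∣ n → r = p ∨ r = q

theorem inL_of_dvd {n d : ℕ} (h : d ∣ n) (hL : InL.{u} n) : InL.{u} d := by
  obtain ⟨c, rfl⟩ := h
  exact fun G _ hG => hL G fun x => by rw [pow_mul, hG, one_pow]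

/-- if `B_{2,5m}` is finite and `m ≥ 2`, then `5 ∈ 𝓛` -/
theorem five_of_two {m : ℕ} (hm : 2 ≤ m) (h : Finite (B 2 (5 * m))) : InL.{u} 5 := by
  rw [mul_comm] at h
  have h3 := R669.three_of_two (d := 5) hm (fun W _ hW x y => by
    obtain ⟨f, hf⟩ := W629.bu2 hW x y
    rw [← hf]
    exact Finite.of_surjective f.rangeRestrict f.rangeRestrict_surjective)
    (B 3 5) (H32BU.x_LFD.2.2.2 3 5) (Y50.FE.bg 5 0) (Y50.FE.bg 5 1) (Y50.FE.bg 5 2)
  rw [Y50.FE.bg_gen] at h3
  exact Y50.FE.inL_five.{u}.2 (Finite.of_equiv _ (Subgroup.topEquiv (G := B 3 5)).toEquiv)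

theorem adm (q k : ℕ) (hq : q.Prime) (hq5 : q ≠ 5) : Admissible (5 * q ^ k) := by
  refine ⟨fun m hm hd => ?_, 5, q, fun r hr _ hd => ?_⟩
  · have h2 : 2 ∣ 5 * q ^ k :=
      (dvd_pow_self 2 (show m ≠ 0 by omega)).trans ((dvd_mul_right _ _).trans hd)
    have hq2 : q = 2 := by
      rcases (Nat.prime_two.dvd_mul.1 h2) with h | h
      · omega
      · exact ((Nat.prime_dvd_prime_iff_eq Nat.prime_two hq).1
          (Nat.prime_two.dvd_of_dvd_pow h)).symm
    subst hq2
    have h4 : 4 ≤ 2 ^ m := by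
      calc 4 = 2 ^ 2 := rfl
        _ ≤ 2 ^ m := Nat.pow_le_pow_right (by norm_num) hm
    have hev : Even (2 ^ m) := (Nat.even_pow.2 ⟨even_two, by omega⟩)
    have hodd : Odd (2 ^ m - 1) := Nat.Even.sub_odd (by omega) hev odd_one
    have hc : Nat.Coprime ((2 ^ m - 1) ^ 2) (2 ^ k) :=
      Nat.Coprime.pow _ _ (Nat.coprime_two_right.2 hodd)
    have h5 : (2 ^ m - 1) ^ 2 ∣ 5 :=
      hc.dvd_of_dvd_mul_right ((dvd_mul_left _ _).trans hd)
    have h6 := Nat.le_of_dvd (by norm_num) h5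
    have h7 : 3 ^ 2 ≤ (2 ^ m - 1) ^ 2 := Nat.pow_le_pow_left (by omega) 2
    omega
  · have h1 : r ∣ 5 * q ^ k := (dvd_pow_self r two_ne_zero).trans hd
    rcases hr.dvd_mul.1 h1 with h | h
    · exact Or.inl ((Nat.prime_dvd_prime_iff_eq hr Nat.prime_five).1 h)
    · exact Or.inr ((Nat.prime_dvd_prime_iff_eq hr hq).1 (hr.dvd_of_dvd_pow h))

theorem card_le (q k : ℕ) (hq : q.Prime) : (5 * q ^ k).primeFactors.card ≤ 2 := by
  refine (Finset.card_le_card (t := {5, q}) ?_).trans Finset.card_le_two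
  intro p hp
  have h1 := Nat.prime_of_mem_primeFactors hp
  rw [Finset.mem_insert, Finset.mem_singleton]
  rcases h1.dvd_mul.1 (Nat.dvd_of_mem_primeFactors hp) with h | h
  · exact Or.inl ((Nat.prime_dvd_prime_iff_eq h1 Nat.prime_five).1 h)
  · exact Or.inr ((Nat.prime_dvd_prime_iff_eq h1 hq).1 (h1.dvd_of_dvd_pow h))

theorem general (n : ℕ) (hn : 1 ≤ n) (hn5 : n ≠ 5) (hA : Admissible n)
    (hs : n.primeFactors.card ≤ 2 ∨ Group.IsSolvable (B 2 n)) :
    InL.{u} n ↔ (∀ p k : ℕ, p.Prime → p ^ k ∣ n → 5 < p ^ k → InL.{u} (p ^ k)) ∧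
      Finite (B 2 n) := by
  have T : InL.{u} n ↔ (∀ p k : ℕ, p.Prime → p ^ k ∣ n → 4 < p ^ k → InL.{u} (p ^ k)) ∧
      Finite (B 2 n) := (TwoGenerators.result.{u}.2 n hn hA).2 hs
  rw [T]
  refine ⟨fun h => ⟨fun p k hp hk h5 => h.1 p k hp hk (by omega), h.2⟩,
    fun h => ⟨fun p k hp hk h4 => ?_, h.2⟩⟩
  rcases Nat.lt_or_ge 5 (p ^ k) with h5 | h5
  · exact h.1 p k hp hk h5
  · have e : p ^ k = 5 := by omega
    rw [e] at hk ⊢
    obtain ⟨m, rfl⟩ := hk
    exact five_of_two (by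
      rcases m with _ | _ | m
      · omega
      · omega
      · omega) h.2

theorem five_mul (q k : ℕ) (hq : q.Prime) (hq5 : q ≠ 5) (hk : 1 ≤ k) :
    InL.{u} (5 * q ^ k) ↔ InL.{u} (q ^ k) ∧ Finite (B 2 (5 * q ^ k)) := by
  have hq2 : 2 ≤ q ^ k := hq.two_le.trans (Nat.le_self_pow (by omega) q)
  rw [general (5 * q ^ k) (by omega) (by omega) (adm q k hq hq5) (Or.inl (card_le q k hq))]
  refine ⟨fun h => ⟨?_, h.2⟩, fun h => ⟨fun p j hp hj h5 => ?_, h.2⟩⟩
  · rcases Nat.lt_or_ge 5 (q ^ k) with h5 | h5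
    · exact h.1 q k hq (dvd_mul_left _ _) h5
    · have h3 : InL.{u} 3 := (H32BU.inL_iff H32BU.x_LFD 3).2 H32BU.x_L34.1
      have h4 : InL.{u} 4 := (H32BU.inL_iff H32BU.x_LFD 4).2 H32BU.x_L34.2
      have hne : q ^ k ≠ 5 := fun e =>
        hq5 ((Nat.prime_dvd_prime_iff_eq hq Nat.prime_five).1 (e ▸ dvd_pow_self q (by omega)))
      rcases (show q ^ k = 2 ∨ q ^ k = 3 ∨ q ^ k = 4 by omega) with e | e | e
      · rw [e]; exact inL_of_dvd (by norm_num) h4
      · rw [e]; exact h3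
      · rw [e]; exact h4
  · by_cases hpq : p = q
    · subst hpq
      have hc : Nat.Coprime (p ^ j) 5 :=
        Nat.Coprime.pow_left _ ((Nat.coprime_primes hp Nat.prime_five).2 hq5)
      exact inL_of_dvd (hc.dvd_of_dvd_mul_left hj) h.1
    · have hc : Nat.Coprime (p ^ j) (q ^ k) :=
        Nat.Coprime.pow _ _ ((Nat.coprime_primes hp hq).2 hpq)
      have := Nat.le_of_dvd (by norm_num) (hc.dvd_of_dvd_mul_right hj)
      omega

/-- (1) Let `n ≥ 1` be admissible, `n ≠ 5`, and suppose that `n` has at most two prime divisors or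
that `B_{2,n}` is soluble. Then `n ∈ 𝓛` if and only if all prime powers greater than `5` dividing
`n` are in `𝓛` and `B_{2,n}` is finite. (2) Let `q ≠ 5` be a prime and `k ≥ 1`. Then `5 q ^ k ∈ 𝓛` if
and only if `q ^ k ∈ 𝓛` and the two-generator group `B_{2,n}` is finite, for `n = 5 q ^ k`. (3) If
`n` is `10`, `15` or `20`, then `n ∈ 𝓛` if and only if `B_{2,n}` is finite. (4) If `B_{2,n}` is finite
for some proper multiple `n` of `5`, then `5 ∈ 𝓛`. -/
theorem result :
    (∀ n : ℕ, 1 ≤ n → n ≠ 5 → Admissible n →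
      (n.primeFactors.card ≤ 2 ∨ Group.IsSolvable (B 2 n)) →
      (InL.{u} n ↔ (∀ p k : ℕ, p.Prime → p ^ k ∣ n → 5 < p ^ k → InL.{u} (p ^ k)) ∧
        Finite (B 2 n))) ∧
    (∀ q k : ℕ, q.Prime → q ≠ 5 → 1 ≤ k →
      (InL.{u} (5 * q ^ k) ↔ InL.{u} (q ^ k) ∧ Finite (B 2 (5 * q ^ k)))) ∧
    (∀ n : ℕ, n = 10 ∨ n = 15 ∨ n = 20 → (InL.{u} n ↔ Finite (B 2 n))) ∧
    ∀ m : ℕ, 2 ≤ m → Finite (B 2 (5 * m)) → InL.{u} 5 := by
  refine ⟨fun n hn hn5 hA hs => general n hn hn5 hA hs,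
    fun q k hq hq5 hk => five_mul q k hq hq5 hk, ?_, fun m hm h => five_of_two hm h⟩
  have h3 : InL.{u} 3 := (H32BU.inL_iff H32BU.x_LFD 3).2 H32BU.x_L34.1
  have h4 : InL.{u} 4 := (H32BU.inL_iff H32BU.x_LFD 4).2 H32BU.x_L34.2
  have h2 : InL.{u} 2 := inL_of_dvd (by norm_num) h4
  rintro n (rfl | rfl | rfl)
  · have h := five_mul.{u} 2 1 Nat.prime_two (by norm_num) le_rfl
    norm_num at h
    rw [h]
    exact ⟨fun h => h.2, fun h => ⟨h2, h⟩⟩
  · have h := five_mul.{u} 3 1 Nat.prime_three (by norm_num) le_rfl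
    norm_num at h
    rw [h]
    exact ⟨fun h => h.2, fun h => ⟨h3, h⟩⟩
  · have h := five_mul.{u} 2 2 Nat.prime_two (by norm_num) (by norm_num)
    norm_num at h
    rw [h]
    exact ⟨fun h => h.2, fun h => ⟨h4, h⟩⟩

end Pool.Agent.Results.MP_544bd1_al.TwoGeneratorsMultiplesOfFive
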